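import Mathlib

set_option autoImplicit false

namespace Pool.Agent.Results.MP_3166d6_co.Lower

open Finset
open scoped symmDiff

abbrev V (n : ℕ) := Fin n → Bool

/-- the neighbour of `v` differing from it in coordinate `i` -/
def flip {n : ℕ} (v : V n) (i : Fin n) : V n := Function.update v i (!v i)

/-- `S_v`: the neighbours of `v` in the directions chosen by `ω v` -/
def fam {n : ℕ} (ω : V n → Finset (Fin n)) (v : V n) : Finset (V n) := (ω v).image (flip v)

/-- min over colourings of the max over `v` of `|χ(S_v)|` -/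
noncomputable def disc {n : ℕ} (S : V n → Finset (V n)) : ℕ :=
  sInf {m | ∃ χ : V n → ℤ, (∀ x, χ x = 1 ∨ χ x = -1) ∧ ∀ v, |∑ x ∈ S v, χ x| ≤ (m : ℤ)}

theorem flip_inj {n : ℕ} (v : V n) : Function.Injective (flip v) := by
  intro i j h
  by_contra hne
  have := congrFun h i
  simp [flip, Function.update_of_ne hne] at this

theorem cb (m : ℕ) : (Nat.centralBinom m) ^ 2 * (3 * m + 1) ≤ 16 ^ m := by
  induction m with
  | zero => simp
  | succ m ih =>
    have h := Nat.succ_mul_centralBinom_succ m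
    refine Nat.le_of_mul_le_mul_left (c := (m + 1) ^ 2 * (3 * m + 1)) ?_ (by positivity)
    calc (m + 1) ^ 2 * (3 * m + 1) * ((m + 1).centralBinom ^ 2 * (3 * (m + 1) + 1))
        = ((m + 1) * (m + 1).centralBinom) ^ 2 * ((3 * m + 1) * (3 * m + 4)) := by ring
      _ = (4 * (2 * m + 1) ^ 2 * (3 * m + 4)) * (m.centralBinom ^ 2 * (3 * m + 1)) := by
          rw [h]; ring
      _ ≤ (16 * ((m + 1) ^ 2 * (3 * m + 1))) * 16 ^ m :=
          Nat.mul_le_mul (by nlinarith [Nat.zero_le m, Nat.zero_le (m ^ 2), Nat.zero_le (m ^ 3)]) ih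
      _ = _ := by ring

theorem mid (n : ℕ) : (n.choose (n / 2)) ^ 2 * n ≤ 4 ^ n := by
  rcases Nat.even_or_odd' n with ⟨m, rfl | rfl⟩
  · have := cb m
    rw [Nat.centralBinom_eq_two_mul_choose] at this
    rw [show 2 * m / 2 = m by omega, pow_mul]
    exact le_trans (Nat.mul_le_mul_left _ (by omega)) this
  · have h := cb (m + 1)
    rw [Nat.centralBinom_eq_two_mul_choose, show 2 * (m + 1) = (2 * m + 1) + 1 by ring,
      Nat.choose_succ_succ', Nat.choose_symm_half] at h
    rw [show (2 * m + 1) / 2 = m by omega]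
    have e : 16 ^ (m + 1) = 4 * 4 ^ (2 * m + 1) := by
      rw [show (16 : ℕ) = 4 ^ 2 by norm_num, ← pow_mul]; ring
    rw [e] at h
    nlinarith [Nat.zero_le (((2 * m + 1).choose m) ^ 2 * m), Nat.zero_le (((2 * m + 1).choose m) ^ 2)]

theorem atom {n : ℕ} (ε : Fin n → ℤ) (h : ∀ i, ε i = 1 ∨ ε i = -1) (j : ℤ) :
    #{s : Finset (Fin n) | ∑ i ∈ s, ε i = j} ≤ n.choose (n / 2) := by
  set N : Finset (Fin n) := {i | ε i = -1} with hN
  have key : ∀ s : Finset (Fin n), ((s ∆ N).card : ℤ) = ∑ i ∈ s, ε i + N.card := by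
    intro s
    have e1 : ∀ t : Finset (Fin n), (t.card : ℤ) = ∑ i, if i ∈ t then 1 else 0 := by
      intro t; simp
    have e2 : ∑ i ∈ s, ε i = ∑ i, if i ∈ s then ε i else 0 := by simp
    rw [e1, e1 N, e2, ← sum_add_distrib]
    refine sum_congr rfl fun i _ => ?_
    rcases h i with h | h <;> by_cases hs : i ∈ s <;> simp [N, mem_symmDiff, hs, h]
  refine le_trans ?_ (Nat.choose_le_middle (j + N.card).toNat n)
  have : n.choose (j + N.card).toNat = #(powersetCard (j + N.card).toNat (univ : Finset (Fin n))) := by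
    simp
  rw [this]
  refine card_le_card_of_injOn (fun s => s ∆ N) (fun s hs => ?_) (fun a _ b _ hab => ?_)
  · have h1 := key s
    have h2 : ∑ i ∈ s, ε i = j := by simpa using hs
    simp only [mem_coe, mem_powersetCard, subset_univ, true_and]
    omega
  · exact symmDiff_left_injective N hab

theorem band {n : ℕ} (ε : Fin n → ℤ) (h : ∀ i, ε i = 1 ∨ ε i = -1) (t : ℕ) :
    #{s : Finset (Fin n) | |∑ i ∈ s, ε i| ≤ t} ≤ n.choose (n / 2) * (2 * t + 1) := by
  have e : #(Icc (-(t : ℤ)) t) = 2 * t + 1 := by simp; omega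
  rw [← e]
  refine card_le_mul_card_image_of_maps_to (f := fun s => ∑ i ∈ s, ε i) (fun s hs => ?_) _
    (fun j _ => le_trans (card_le_card fun s hs => ?_) (atom ε h j))
  · simpa [abs_le] using hs
  · simp only [mem_filter, mem_univ, true_and] at hs ⊢
    exact hs.2

open Classical in
theorem result (n t : ℕ) (h : 16 * (2 * t + 1) ^ 2 ≤ n) :
    #{ω : V n → Finset (Fin n) | disc (fam ω) ≤ t} * 2 ^ 2 ^ n
      ≤ Fintype.card (V n → Finset (Fin n)) := by
  set B := n.choose (n / 2) * (2 * t + 1) with hB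
  have hV : Fintype.card (V n) = 2 ^ n := by simp
  have h4 : 2 * B * 2 ≤ 2 ^ n := by
    have hn : 0 < n := lt_of_lt_of_le (by positivity) h
    refine (Nat.pow_le_pow_iff_left (n := 2) (by norm_num)).1 ?_
    refine Nat.le_of_mul_le_mul_right (c := n) ?_ hn
    calc (2 * B * 2) ^ 2 * n = (16 * (2 * t + 1) ^ 2) * ((n.choose (n / 2)) ^ 2 * n) := by
          rw [hB]; ring
      _ ≤ n * 4 ^ n := Nat.mul_le_mul h (mid n)
      _ = _ := by rw [← pow_mul, mul_comm n 2, pow_mul]; ring
  have hsub : ({ω : V n → Finset (Fin n) | disc (fam ω) ≤ t} : Finset _) ⊆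
      (Fintype.piFinset fun _ : V n => ({1, -1} : Finset ℤ)).biUnion fun χ =>
        Fintype.piFinset fun v => ({s : Finset (Fin n) | |∑ i ∈ s, χ (flip v i)| ≤ t} : Finset _) := by
    intro ω hω
    have h1 : disc (fam ω) ≤ t := by simpa using hω
    have hne : {m : ℕ | ∃ χ : V n → ℤ, (∀ x, χ x = 1 ∨ χ x = -1) ∧
        ∀ v, |∑ x ∈ fam ω v, χ x| ≤ (m : ℤ)}.Nonempty :=
      ⟨Fintype.card (V n), fun _ => 1, fun _ => Or.inl rfl, fun v => by
        have := card_le_univ (fam ω v)
        simp only [sum_const, nsmul_eq_mul, mul_one, Nat.abs_cast]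
        exact_mod_cast this⟩
    obtain ⟨χ, a1, a2⟩ := Nat.sInf_mem hne
    simp only [mem_biUnion, Fintype.mem_piFinset, mem_insert, mem_singleton, mem_filter, mem_univ,
      true_and]
    refine ⟨χ, a1, fun v => ?_⟩
    have := a2 v
    rw [fam, sum_image fun a _ b _ hab => flip_inj v hab] at this
    exact this.trans (by exact_mod_cast h1)
  have h2 := (card_le_card hsub).trans (card_biUnion_le_card_mul _ _ (B ^ 2 ^ n) fun χ hχ => by
    rw [Fintype.card_piFinset, ← hV, ← card_univ]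
    refine prod_le_pow_card _ _ _ fun v _ => band _ (fun i => ?_) t
    simpa using Fintype.mem_piFinset.1 hχ (flip v i))
  have h3 : #(Fintype.piFinset fun _ : V n => ({1, -1} : Finset ℤ)) = 2 ^ 2 ^ n := by
    rw [Fintype.card_piFinset]; simp
  rw [h3] at h2
  calc _ ≤ 2 ^ 2 ^ n * B ^ 2 ^ n * 2 ^ 2 ^ n := Nat.mul_le_mul_right _ h2
    _ = (2 * B * 2) ^ 2 ^ n := by rw [mul_pow (2 * B), mul_pow 2 B]
    _ ≤ (2 ^ n) ^ 2 ^ n := Nat.pow_le_pow_left h4 _
    _ = _ := by simp

end Pool.Agent.Results.MP_3166d6_co.Lower
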