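import Mathlib
import Pool.Agent.H6.IsA

set_option autoImplicit false

namespace Pool.Agent.Results.MP_3166d6_co.Upper

open Finset
open scoped symmDiff

abbrev V (n : ℕ) := Fin n → Bool

/-- the neighbour of `v` differing from it in coordinate `i` -/
def flip {n : ℕ} (v : V n) (i : Fin n) : V n := Function.update v i (!v i)

/-- `S_v`: the neighbours of `v` in the directions chosen by `ω v` -/
def fam {n : ℕ} (ω : V n → Finset (Fin n)) (v : V n) : Finset (V n) := (ω v).image (flip v)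

/-- min over colourings of the max over `v` of `|χ(S_v)|` -/
noncomputable def disc {n : ℕ} (S : V n → Finset (V n)) : ℕ :=
  sInf {m | ∃ χ : V n → ℤ, (∀ x, χ x = 1 ∨ χ x = -1) ∧ ∀ v, |∑ x ∈ S v, χ x| ≤ (m : ℤ)}

theorem flip_inj {n : ℕ} (v : V n) : Function.Injective (flip v) := by
  intro i j h
  by_contra hne
  have := congrFun h i
  simp [flip, Function.update_of_ne hne] at this

theorem flip_flip {n : ℕ} (v : V n) (i : Fin n) : flip (flip v i) i = v := by
  simp [flip]

theorem disc_le {n : ℕ} (S : V n → Finset (V n)) (χ : V n → ℤ) (h : ∀ x, χ x = 1 ∨ χ x = -1)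
    {c : ℝ} (c0 : 0 ≤ c) (hc : ∀ v, |((∑ x ∈ S v, χ x : ℤ) : ℝ)| ≤ c) : (disc S : ℝ) ≤ c := by
  refine le_trans ?_ (Nat.floor_le c0)
  refine Nat.cast_le.2 (Nat.sInf_le ⟨χ, h, fun v => ?_⟩)
  have := hc v
  rw [← Int.cast_abs, ← Int.natCast_natAbs, Int.cast_natCast] at this
  rw [← Int.natCast_natAbs]
  exact_mod_cast Nat.le_floor this

open Classical in
theorem result (n : ℕ) (hn : 1 ≤ n) (ω : V n → Finset (Fin n)) :
    (disc (fam ω) : ℝ) ≤ 4 * √(n * Real.log (8 * n ^ 2)) := by
  have n1 : (1 : ℝ) ≤ n := by exact_mod_cast hn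
  have L0 : 0 < Real.log (8 * n ^ 2) := Real.log_pos (by nlinarith)
  obtain ⟨l, hl⟩ : ∃ l, l = √(n * Real.log (8 * n ^ 2)) / n := ⟨_, rfl⟩
  have e1 : √(n * Real.log (8 * n ^ 2)) = l * n := by rw [hl]; field_simp
  have l0 : 0 < l := by rw [hl]; positivity
  have e2 : l ^ 2 * n = Real.log (8 * n ^ 2) := by
    rw [hl, div_pow, Real.sq_sqrt (by positivity)]; field_simp
  rw [e1]
  have hs : ∀ (χ : V n → ℤ) v, ∑ x ∈ fam ω v, χ x = ∑ i ∈ ω v, χ (flip v i) := fun χ v => by
    rw [fam, sum_image fun a _ b _ hab => flip_inj v hab]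
  by_cases l1 : l ≤ 1
  swap
  · refine disc_le _ (fun _ => 1) (fun _ => Or.inl rfl) (by positivity) fun v => ?_
    have : (#(ω v) : ℝ) ≤ n := by exact_mod_cast (by simpa using card_le_univ (ω v))
    rw [hs]
    simp only [sum_const, nsmul_eq_mul, mul_one, Int.cast_natCast, Nat.abs_cast]
    nlinarith
  obtain ⟨pos, hpos⟩ : ∃ pos : V n × Fin 2 → Fin n → V n ⊕ V n × Fin n,
      pos = fun e t => if t ∈ ω e.1 then .inl (flip e.1 t) else .inr (e.1, t) := ⟨_, rfl⟩
  obtain ⟨σ, hσ⟩ := H6.Is.fin_round (X := V n ⊕ V n × Fin n) (M := 2) (N := n) (n := 3)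
    (D := n * n * 2) (by norm_num) (by positivity)
    (Sum.elim (fun _ t => t.castSucc) fun _ _ => 2)
    (Sum.elim (fun _ _ => 1 / 2) fun _ j => if j = 2 then 1 else 0)
    (by
      rintro (x | x) j <;> fin_cases j <;> simp [Fin.sum_univ_two])
    univ pos (fun e => e.2.castSucc)
    (fun e _ a b hab => by
      simp only [hpos] at hab
      split_ifs at hab
      · exact flip_inj _ (Sum.inl.inj hab)
      · exact (Prod.ext_iff.1 (Sum.inr.inj hab)).2)
    (fun e e' => ∃ t t', pos e t = pos e' t') (fun e _ e' _ h t t' q => h ⟨t, t', q⟩)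
    (fun e _ => by
      refine le_trans (card_le_card (t := (univ : Finset ((Fin n × Fin n) × Fin 2)).image
        fun q => (flip (flip e.1 q.1.1) q.1.2, q.2)) fun e' he' => ?_) (card_image_le.trans (by simp))
      simp only [mem_filter, mem_univ, true_and] at he'
      obtain ⟨t, t', q⟩ := he'
      simp only [hpos] at q
      split_ifs at q
      · exact mem_image.2 ⟨((t, t'), e'.2), mem_univ _, by
          simp only [Sum.inl.inj q, flip_flip]⟩
      · exact mem_image.2 ⟨((t, t), e'.2), mem_univ _, by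
          simp only [flip_flip]
          rw [show e.1 = e'.1 from (Prod.ext_iff.1 (Sum.inr.inj q)).1]⟩)
    l0 l1 (by rw [e2, Real.exp_log (by positivity)]; push_cast; nlinarith)
  refine disc_le _ (fun x => if σ (.inl x) = 0 then 1 else -1)
    (fun x => by split_ifs <;> simp) (by positivity) fun v => ?_
  have key : ∀ b : Fin 2, (∑ t, if t ∈ ω v then (if σ (.inl (flip v t)) = b then (1 : ℝ) else 0) else 0)
      ≤ (∑ t, if t ∈ ω v then (1 / 2 : ℝ) else 0) + 2 * l * n := fun b => by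
    have := hσ (v, b) (mem_univ _)
    have hb : ¬ (2 : Fin 3) = b.castSucc := by fin_cases b <;> decide
    have hb' : ¬ b.castSucc = (2 : Fin 3) := fun q => hb q.symm
    refine le_trans (le_of_eq (sum_congr rfl fun t _ => ?_))
      (this.trans (le_of_eq (congrArg (· + 2 * l * n) (sum_congr rfl fun t _ => ?_))))
    · by_cases ht : t ∈ ω v <;> simp [hpos, ht, hb]
    · by_cases ht : t ∈ ω v <;> simp [hpos, ht, hb']
  have a : ((∑ i ∈ ω v, (if σ (.inl (flip v i)) = 0 then 1 else -1) : ℤ) : ℝ) =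
      2 * ((∑ t, if t ∈ ω v then (if σ (.inl (flip v t)) = 0 then (1 : ℝ) else 0) else 0) -
        ∑ t, if t ∈ ω v then (1 / 2 : ℝ) else 0) := by
    rw [← sum_sub_distrib, mul_sum, ← Finset.sum_ite_mem_eq]
    push_cast
    refine sum_congr rfl fun t _ => ?_
    split_ifs <;> norm_num
  have b : ((∑ i ∈ ω v, (if σ (.inl (flip v i)) = 0 then 1 else -1) : ℤ) : ℝ) =
      -2 * ((∑ t, if t ∈ ω v then (if σ (.inl (flip v t)) = 1 then (1 : ℝ) else 0) else 0) -
        ∑ t, if t ∈ ω v then (1 / 2 : ℝ) else 0) := by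
    rw [← sum_sub_distrib, mul_sum, ← Finset.sum_ite_mem_eq]
    push_cast
    refine sum_congr rfl fun t _ => ?_
    generalize σ (.inl (flip v t)) = c
    by_cases ht : t ∈ ω v <;> fin_cases c <;> simp [ht] <;> norm_num
  rw [hs, abs_le]
  constructor
  · rw [b]; linarith [key 1]
  · rw [a]; linarith [key 0]

end Pool.Agent.Results.MP_3166d6_co.Upper
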